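import Mathlib
import Pool.Agent.H759R2.Kad.Props3

open scoped ComplexOrder InnerProductSpace ComplexConjugate
open Finset

noncomputable section

namespace H759R2.Kad

universe u v

namespace VmapAux

variable {B : Type u} [CStarAlgebra B] [PartialOrder B] [StarOrderedRing B]
variable {K : Type v} [NormedAddCommGroup K] [InnerProductSpace ℂ K] [CompleteSpace K]

omit [PartialOrder B] [StarOrderedRing B] in
theorem amp_vmap (w : B →ₗ[ℂ] (K →L[ℂ] K)) (ι : Type) [Fintype ι] [DecidableEq ι]
    (X : CStarMatrix ι ι B) : amp (vmap w) ι X = star (amp w ι (star X)) := by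
  have h1 : amp w ι (star X) = opMat fun i j => w ((star X) i j) := rfl
  have h2 : amp (vmap w) ι X = opMat fun i j => (vmap w) (X i j) := rfl
  rw [h1, h2, opMat_star]
  congr 1

end VmapAux

open VmapAux

theorem prove3_vmap : K_vmap.{u, v} := by
  intro B _ _ _ K _ _ _ w
  refine ⟨fun ι _ _ X => amp_vmap w ι X, ?_, ?_⟩
  · intro L γ h Y
    have h1 : ‖amp (vmap w) (Fin L) Y‖ = ‖amp w (Fin L) (star Y)‖ := by
      rw [amp_vmap, ContinuousLinearMap.star_eq_adjoint]
      exact LinearIsometryEquiv.norm_map _ _
    rw [h1]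
    exact (h (star Y)).trans (by rw [norm_star])
  · intro c h b
    rw [vmap_apply, norm_star]
    exact (h (star b)).trans (by rw [norm_star])

end H759R2.Kad
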